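import Pool.Agent.Helper51.GT.Defs

set_option autoImplicit false

namespace Pool.Agent.Helper51.GT

theorem detr_zero (R : Type) [CommRing R] (u v : Fin 4 → R) : (Matrix.vecMulVec u v).det = 0 := by
  rw [Matrix.det_succ_row_zero]
  simp [Matrix.det_succ_row_zero, Fin.sum_univ_succ, Matrix.vecMulVec_apply, Fin.succAbove]
  ring

theorem st_DETR : ST_DETR := by
  intro R _ _ u v S p
  by_cases hp : p = 0
  · subst hp
    rw [zero_smul, add_zero, detr_zero]
    exact dvd_zero _
  · set B : Matrix (Fin 4) Unit R := Matrix.of fun i _ => - u i with hB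
    set D : Matrix Unit (Fin 4) R := Matrix.of fun _ j => v j with hD
    have h1 : (Matrix.fromBlocks (p • S) B D (1 : Matrix Unit Unit R)).det =
        (Matrix.vecMulVec u v + p • S).det := by
      rw [Matrix.det_fromBlocks_one₂₂]
      congr 1
      refine Matrix.ext fun i j => ?_
      simp [hB, hD, Matrix.mul_apply, Matrix.vecMulVec_apply]
      ring
    have h2 : Matrix.fromBlocks (p • S) B D (1 : Matrix Unit Unit R) *
        Matrix.fromBlocks (1 : Matrix (Fin 4) (Fin 4) R) 0 0 (p • (1 : Matrix Unit Unit R)) =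
        Matrix.fromBlocks (p • (1 : Matrix (Fin 4) (Fin 4) R)) 0 0 (1 : Matrix Unit Unit R) *
        Matrix.fromBlocks S B D (p • (1 : Matrix Unit Unit R)) := by
      rw [Matrix.fromBlocks_multiply, Matrix.fromBlocks_multiply]
      simp
    have h3 := congrArg Matrix.det h2
    rw [Matrix.det_mul, Matrix.det_mul, h1, Matrix.det_fromBlocks_zero₂₁,
      Matrix.det_fromBlocks_zero₂₁] at h3
    simp only [Matrix.det_smul, Matrix.det_one, Fintype.card_fin, Fintype.card_unit, mul_one,
      one_mul, pow_one] at h3
    refine ⟨(Matrix.fromBlocks S B D (p • (1 : Matrix Unit Unit R))).det, ?_⟩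
    refine mul_right_cancel₀ hp ?_
    rw [h3]
    ring

end Pool.Agent.Helper51.GT
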