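import Pool.Agent.Helper51.GT.Defs

set_option autoImplicit false

namespace Pool.Agent.Helper51.GT

theorem st_DETS : ST_DETS := by
  intro R _ _ M N s hs hMN hM
  have h1 : M * (N - s • (1 : Matrix (Fin 4) (Fin 4) R)) =
      (-s) • (M - s • (1 : Matrix (Fin 4) (Fin 4) R)) := by
    rw [mul_sub, hMN, Matrix.mul_smul, mul_one, smul_sub, smul_smul, neg_smul, pow_two]
    rw [neg_mul, neg_smul]
    abel
  have h2 := congrArg Matrix.det h1
  rw [Matrix.det_mul, Matrix.det_smul, hM, Fintype.card_fin] at h2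
  have h3 : (-s) ^ 4 = s ^ 4 := by ring
  rw [h3] at h2
  exact mul_left_cancel₀ (pow_ne_zero 4 hs) h2

end Pool.Agent.Helper51.GT
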