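import Pool.Agent.Helper51.GT.Lib

set_option autoImplicit false

namespace Pool.Agent.Helper51.GT

open Polynomial Lib

theorem st_EV : ST_EV := by
  intro K _ φ h a ha c hc r s
  have ha0 : a ≠ 0 := XS_ne ha
  have hc0 : c ≠ 0 := XS_ne hc
  have hfa : ∀ i, fr φ i a ≠ 0 := fun i => (_root_.map_ne_zero _).2 ha0
  have h8 := h.ord
  -- the evaluation as a matrix identity
  have h1 : th φ a * ad φ c =
      dg φ (bt φ a)⁻¹ * ((1 + Zm) * dg φ (a⁻¹ * c) * Um) * dg φ (bt φ c) := by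
    rw [th, ad, ← dg_mul]
    simp only [mul_assoc]
  have h2 : ((1 + Zm) * dg φ (a⁻¹ * c) * Um : Mat K) = dg φ (a⁻¹ * c) * Um +
      dg φ (fr φ 2 (a⁻¹ * c)) * (Zm * Um) := by
    rw [add_mul, one_mul, add_mul, Zm_dg h, mul_assoc]
  have h3 : ∀ i j : Fin 4, ((Um : Mat K) i j).eval 1 = 1 := by
    intro i j
    fin_cases i <;> fin_cases j <;> simp [Um]
  have h4 : ∀ i j : Fin 4, ((Zm * Um : Mat K) i j).eval 1 = 1 := by
    intro i j
    fin_cases i <;> fin_cases j <;> simp [Um, Zm, Matrix.mul_apply, Fin.sum_univ_four]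
  rw [h1, h2]
  simp only [dg, Matrix.mul_diagonal, Matrix.diagonal_mul, Matrix.add_apply, eval_mul, eval_add,
    eval_C, h3, h4, mul_one]
  have h5 : (bt φ a)⁻¹ * (a⁻¹ * c + fr φ 2 (a⁻¹ * c)) = gm φ a c := by
    have := hfa 2
    have := hfa 5
    rw [gm, bt, map_mul, map_inv₀]
    field_simp
  rw [← h5]
  simp only [map_mul, map_add]

end Pool.Agent.Helper51.GT
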